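import Pool.Agent.H41.FD.Stm

set_option autoImplicit false

namespace Pool.Agent.H56.FD

open MeasureTheory Filter Topology ProbabilityTheory Pool.Agent.H41.FD
open Pool.Agent.H41.LD (Past Future RangeDep)

noncomputable def mu : Measure ℝ := volume.restrict (Set.Icc 0 1)

instance : IsProbabilityMeasure mu := ⟨by simp [mu]⟩

noncomputable def PP : Measure (ℕ → ℝ) := Measure.infinitePi (fun _ : ℕ => mu)

instance : IsProbabilityMeasure PP := by unfold PP; infer_instance

theorem PP_le (l : ℕ) (t : ℝ) (h1 : t ≤ 1) (h0 : 0 ≤ t) : PP.real {ω | ω l ≤ t} = t := by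
  have h := measurePreserving_eval_infinitePi (fun _ : ℕ => mu) l
  have h3 := h.measure_preimage (measurableSet_Iic (a := t)).nullMeasurableSet
  have h4 : mu (Set.Iic t) = ENNReal.ofReal t := by
    rw [mu, Measure.restrict_apply measurableSet_Iic]
    have : Set.Iic t ∩ Set.Icc 0 1 = Set.Icc 0 t := by
      ext x
      simp only [Set.mem_inter_iff, Set.mem_Iic, Set.mem_Icc]
      constructor
      · rintro ⟨a, b, c⟩
        exact ⟨b, a⟩
      · rintro ⟨a, b⟩
        exact ⟨b, a, b.trans h1⟩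
    rw [this, Real.volume_Icc, sub_zero]
  rw [measureReal_def]
  have h5 : PP {ω | ω l ≤ t} = ENNReal.ofReal t := by
    rw [← h4, ← h3]
    rfl
  rw [h5, ENNReal.toReal_ofReal h0]

/-- the length of the blocks -/
def len (d : ℕ → ℕ) (s : ℕ) : ℕ := min (1 + d (2 ^ s)) (2 ^ s)

theorem len_pos (d : ℕ → ℕ) (s : ℕ) : 0 < len d s := by
  unfold len
  have : 0 < 2 ^ s := by positivity
  omega

/-- the label of the block -/
def lab (d : ℕ → ℕ) (k : ℕ) : ℕ :=
  if k = 0 then Nat.pair 0 1 else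
    Nat.pair (Nat.log 2 k) ((k - 2 ^ Nat.log 2 k) / len d (Nat.log 2 k))

theorem len_zero (d : ℕ → ℕ) : len d 0 = 1 := by
  unfold len
  simp

theorem lab_ne {d : ℕ → ℕ} (hd : Monotone d) {n n' k : ℕ} (hn' : n' ≤ n) (hk : n + d n < k) :
    lab d n' ≠ lab d k := by
  intro h
  have hk0 : k ≠ 0 := by omega
  unfold lab at h
  rw [if_neg hk0] at h
  by_cases h0 : n' = 0
  · rw [if_pos h0, Nat.pair_eq_pair] at h
    obtain ⟨h1, h2⟩ := h
    rw [← h1, len_zero, pow_zero, Nat.div_one] at h2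
    have h3 : k < 2 ^ (Nat.log 2 k + 1) := Nat.lt_pow_succ_log_self (by norm_num) k
    rw [← h1] at h3
    omega
  · rw [if_neg h0, Nat.pair_eq_pair] at h
    obtain ⟨h1, h2⟩ := h
    rw [← h1] at h2
    set s := Nat.log 2 n' with hs
    have h3 : 2 ^ s ≤ n' := Nat.pow_log_le_self 2 h0
    have h4 : 2 ^ s ≤ k := by omega
    have hL := len_pos d s
    have h5 : k - 2 ^ s < n' - 2 ^ s + len d s := by
      have e1 := Nat.div_add_mod (k - 2 ^ s) (len d s)
      have e2 := Nat.div_add_mod (n' - 2 ^ s) (len d s)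
      have e3 := Nat.mod_lt (k - 2 ^ s) hL
      rw [← h2] at e1
      omega
    have h6 : len d s ≤ 1 + d (2 ^ s) := min_le_left _ _
    have h7 : d (2 ^ s) ≤ d n := hd (h3.trans hn')
    omega

/-- the events -/
def EE (d : ℕ → ℕ) (k : ℕ) : Set (ℕ → ℝ) := {ω | ω (lab d k) ≤ 1 / ((k : ℝ) + 1)}

theorem EE_meas (d : ℕ → ℕ) (k : ℕ) : MeasurableSet (EE d k) :=
  measurableSet_le (measurable_pi_apply _) measurable_const

theorem EE_comap (d : ℕ → ℕ) (k : ℕ) :
    MeasurableSet[MeasurableSpace.comap (fun ω : ℕ → ℝ => ω (lab d k)) inferInstance] (EE d k) :=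
  ⟨Set.Iic (1 / ((k : ℝ) + 1)), measurableSet_Iic, rfl⟩

theorem indepFun : iIndepFun (fun (i : ℕ) (ω : ℕ → ℝ) => ω i) PP :=
  iIndepFun_infinitePi (X := fun _ x => x) (fun _ => measurable_id)

theorem rangeDep {d : ℕ → ℕ} (hd : Monotone d) : RangeDep PP (EE d) d where
  meas := EE_meas d
  indep n := by
    have h1 := indep_iSup_of_disjoint (m := fun i : ℕ =>
        MeasurableSpace.comap (fun ω : ℕ → ℝ => ω i) inferInstance) (μ := PP)
      (fun i => (measurable_pi_apply i).comap_le) indepFun.iIndep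
      (S := {i | ∃ k, k ≤ n ∧ lab d k = i}) (T := {i | ∃ k, n + d n < k ∧ lab d k = i}) ?_
    · refine indep_of_indep_of_le_left (indep_of_indep_of_le_right h1 ?_) ?_
      · refine MeasurableSpace.generateFrom_le ?_
        rintro s ⟨k, hk, rfl⟩
        have h2 : MeasurableSpace.comap (fun ω : ℕ → ℝ => ω (lab d k)) inferInstance ≤
            ⨆ i ∈ {i | ∃ k, n + d n < k ∧ lab d k = i},
              MeasurableSpace.comap (fun ω : ℕ → ℝ => ω i) inferInstance :=
          le_iSup₂_of_le (lab d k) ⟨k, hk, rfl⟩ le_rfl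
        exact h2 _ (EE_comap d k)
      · refine MeasurableSpace.generateFrom_le ?_
        rintro s ⟨k, hk, rfl⟩
        have h2 : MeasurableSpace.comap (fun ω : ℕ → ℝ => ω (lab d k)) inferInstance ≤
            ⨆ i ∈ {i | ∃ k, k ≤ n ∧ lab d k = i},
              MeasurableSpace.comap (fun ω : ℕ → ℝ => ω i) inferInstance :=
          le_iSup₂_of_le (lab d k) ⟨k, hk, rfl⟩ le_rfl
        exact h2 _ (EE_comap d k)
    · rw [Set.disjoint_left]
      rintro i ⟨k, hk, rfl⟩ ⟨k', hk', h⟩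
      exact lab_ne hd hk hk' h.symm

/-- the union of the events of one scale -/
theorem union_bound (d : ℕ → ℕ) (s : ℕ) :
    PP.real (⋃ k ∈ Finset.Ico (2 ^ s) (2 ^ (s + 1)), EE d k) ≤
      1 / (1 + d (2 ^ s) : ℝ) + 2 * (1 / 2) ^ s := by
  have hL := len_pos d s
  have h2s : (0 : ℝ) < 2 ^ s := by positivity
  have hsub : (⋃ k ∈ Finset.Ico (2 ^ s) (2 ^ (s + 1)), EE d k) ⊆
      ⋃ j ∈ Finset.range (2 ^ s / len d s + 1), {ω : ℕ → ℝ | ω (Nat.pair s j) ≤ (1 / 2) ^ s} := by
    intro ω hω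
    simp only [Set.mem_iUnion, Finset.mem_Ico, Finset.mem_range] at hω ⊢
    obtain ⟨k, ⟨h1, h2⟩, h3⟩ := hω
    have hk0 : k ≠ 0 := by
      have : 0 < 2 ^ s := by positivity
      omega
    have hlog : Nat.log 2 k = s := (Nat.log_eq_iff (Or.inr ⟨by norm_num, hk0⟩)).2 ⟨h1, h2⟩
    refine ⟨(k - 2 ^ s) / len d s, ?_, ?_⟩
    · rw [Nat.lt_succ_iff]
      apply Nat.div_le_div_right
      rw [pow_succ] at h2
      omega
    · have h4 : lab d k = Nat.pair s ((k - 2 ^ s) / len d s) := by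
        unfold lab
        rw [if_neg hk0, hlog]
      have h5 : ω (lab d k) ≤ 1 / ((k : ℝ) + 1) := h3
      rw [h4] at h5
      refine h5.trans ?_
      rw [one_div_pow]
      apply one_div_le_one_div_of_le h2s
      have : ((2 ^ s : ℕ) : ℝ) ≤ k := by exact_mod_cast h1
      push_cast at this
      linarith
  have h1 : PP.real (⋃ k ∈ Finset.Ico (2 ^ s) (2 ^ (s + 1)), EE d k) ≤
      (2 ^ s / len d s + 1 : ℕ) * (1 / 2) ^ s := by
    refine (measureReal_mono hsub (measure_ne_top PP _)).trans ?_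
    refine (measureReal_biUnion_finset_le _ _).trans ?_
    rw [Finset.sum_congr rfl fun j _ => PP_le (Nat.pair s j) ((1 / 2) ^ s)
      (pow_le_one₀ (by norm_num) (by norm_num)) (by positivity), Finset.sum_const,
      Finset.card_range, nsmul_eq_mul]
  refine h1.trans ?_
  have hLr : (0 : ℝ) < len d s := by exact_mod_cast hL
  have h2 : ((2 ^ s / len d s + 1 : ℕ) : ℝ) ≤ 2 ^ s / len d s + 1 := by
    push_cast
    have := @Nat.cast_div_le ℝ _ _ _ (2 ^ s) (len d s)
    push_cast at this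
    linarith
  have h3 : (2 : ℝ) ^ s / len d s ≤ 2 ^ s / (1 + d (2 ^ s)) + 1 := by
    have h4 : len d s = min (1 + d (2 ^ s)) (2 ^ s) := rfl
    rcases min_choice (1 + d (2 ^ s)) (2 ^ s) with h5 | h5
    · rw [h4, h5]
      push_cast
      linarith
    · rw [h4, h5]
      push_cast
      rw [div_self h2s.ne']
      have : (0 : ℝ) ≤ 2 ^ s / (1 + d (2 ^ s)) := by positivity
      linarith
  calc ((2 ^ s / len d s + 1 : ℕ) : ℝ) * (1 / 2) ^ s
      ≤ (2 ^ s / (1 + d (2 ^ s)) + 2) * (1 / 2) ^ s := by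
        apply mul_le_mul_of_nonneg_right _ (by positivity)
        linarith
    _ = 1 / (1 + d (2 ^ s) : ℝ) + 2 * (1 / 2) ^ s := by
        rw [one_div_pow]
        field_simp

theorem b : S_B := by
  intro d hd hsum
  refine ⟨ℕ → ℝ, inferInstance, PP, inferInstance, EE d, rangeDep hd, ?_, ?_⟩
  · intro k
    have hk : (0 : ℝ) ≤ k := Nat.cast_nonneg k
    refine PP_le _ _ ?_ (by positivity)
    rw [div_le_one (by linarith)]
    linarith
  · have hcond : Summable fun s : ℕ => 1 / (1 + d (2 ^ s) : ℝ) := by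
      have h1 := (summable_condensed_iff_of_nonneg
        (f := fun k : ℕ => 1 / ((k : ℝ) * (1 + d k))) (fun n => by positivity) ?_).2 hsum
      · refine h1.congr fun s => ?_
        push_cast
        have : (0 : ℝ) < 2 ^ s := by positivity
        field_simp
      · intro m n hm hmn
        have hm' : (0 : ℝ) < m := by exact_mod_cast hm
        have hmn' : (m : ℝ) ≤ n := by exact_mod_cast hmn
        have hdd : (d m : ℝ) ≤ d n := by exact_mod_cast hd hmn
        have hd0 : (0 : ℝ) ≤ d m := Nat.cast_nonneg _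
        apply one_div_le_one_div_of_le (by positivity)
        gcongr
    have hs : Summable fun s : ℕ => 1 / (1 + d (2 ^ s) : ℝ) + 2 * (1 / 2) ^ s :=
      hcond.add ((summable_geometric_of_lt_one (by norm_num) (by norm_num)).mul_left 2)
    have hs2 : Summable fun s : ℕ => PP.real (⋃ k ∈ Finset.Ico (2 ^ s) (2 ^ (s + 1)), EE d k) :=
      Summable.of_nonneg_of_le (fun _ => measureReal_nonneg) (union_bound d) hs
    have h3 : ∑' s : ℕ, PP (⋃ k ∈ Finset.Ico (2 ^ s) (2 ^ (s + 1)), EE d k) ≠ ⊤ := by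
      have h4 : ∀ s : ℕ, PP (⋃ k ∈ Finset.Ico (2 ^ s) (2 ^ (s + 1)), EE d k) =
          ENNReal.ofReal (PP.real (⋃ k ∈ Finset.Ico (2 ^ s) (2 ^ (s + 1)), EE d k)) := fun s =>
        (ofReal_measureReal (measure_ne_top PP _)).symm
      simp only [h4]
      exact hs2.tsum_ofReal_ne_top
    filter_upwards [ae_eventually_notMem h3] with ω hω
    rw [Filter.eventually_atTop] at hω
    obtain ⟨s₀, hs₀⟩ := hω
    refine (Set.finite_Iio (2 ^ s₀)).subset ?_
    intro k hk
    rw [Set.mem_Iio]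
    by_contra hge
    push Not at hge
    have hk0 : k ≠ 0 := by
      have : 0 < 2 ^ s₀ := by positivity
      omega
    have h5 : s₀ ≤ Nat.log 2 k := (Nat.le_log_iff_pow_le (by norm_num) hk0).2 hge
    apply hs₀ _ h5
    simp only [Set.mem_iUnion, Finset.mem_Ico]
    exact ⟨k, ⟨Nat.pow_log_le_self 2 hk0, Nat.lt_pow_succ_log_self (by norm_num) k⟩, hk⟩

end Pool.Agent.H56.FD
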